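import Mathlib

namespace H11.Ht

open PowerSeries

/-- adjacency in the grid graph with `m` rows and `n` columns (cells indexed from 0) -/
def Adj {m n : ℕ} (u v : Fin m × Fin n) : Prop :=
  (u.1 = v.1 ∧ (u.2.val + 1 = v.2.val ∨ v.2.val + 1 = u.2.val)) ∨
  (u.2 = v.2 ∧ (u.1.val + 1 = v.1.val ∨ v.1.val + 1 = u.1.val))

/-- height function, normalised at the corner cell -/
def IsHeight {m n : ℕ} (h : Fin m × Fin n → ℤ) : Prop :=
  (∀ u v, Adj u v → |h u - h v| = 1) ∧ ∀ u : Fin m × Fin n, u.1.val = 0 → u.2.val = 0 → h u = 0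

/-- strict local minimum or strict local maximum -/
def IsExt {m n : ℕ} (h : Fin m × Fin n → ℤ) (v : Fin m × Fin n) : Prop :=
  (∀ u, Adj v u → h u = h v + 1) ∨ (∀ u, Adj v u → h u = h v - 1)

/-- number of height functions with exactly `d` extrema -/
noncomputable def E (d m n : ℕ) : ℕ :=
  Set.ncard {h : Fin m × Fin n → ℤ | IsHeight h ∧ Set.ncard {v | IsExt h v} = d}

/-- the series F_{d,m} -/
noncomputable def F (d m : ℕ) : ℚ⟦X⟧ :=
  PowerSeries.mk fun n => if 2 ≤ n then (E d m n : ℚ) else 0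

/-- the series 1/(1-z) -/
noncomputable def geom : ℚ⟦X⟧ := PowerSeries.mk fun _ => 1

/-- `c` is the coefficient of (1-z)^(-(d-2)) in the principal part of F_{d,m} at z = 1 -/
def IsC2 (d m : ℕ) (c : ℚ) : Prop :=
  ∃ (cs : ℕ → ℚ) (P : Polynomial ℚ), cs 2 = c ∧
    F d m = ∑ j ∈ Finset.Icc 1 (d - 1), PowerSeries.C (cs j) * geom ^ (d - j) + (P : ℚ⟦X⟧)

def col (v : Bool) (s : ℕ → Fin 3) : ℕ → ℤ × ℤ
  | 0 => (0, if v then 1 else -1)
  | j + 1 => if s j = 0 then ((col v s j).1 + 1, (col v s j).2 + 1)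
      else if s j = 1 then ((col v s j).1 - 1, (col v s j).2 - 1) else ((col v s j).2, (col v s j).1)

lemma col_inv (v : Bool) (s : ℕ → Fin 3) (j : ℕ) :
    (col v s j).2 = (col v s j).1 + 1 ∨ (col v s j).2 = (col v s j).1 - 1 := by
  induction j with
  | zero => cases v <;> simp [col]
  | succ j ih =>
    simp only [col]
    split_ifs <;> simp only <;> omega

lemma col_step (v : Bool) (s : ℕ → Fin 3) (j : ℕ) :
    (s j = 0 ∧ (col v s (j+1)).1 = (col v s j).1 + 1 ∧ (col v s (j+1)).2 = (col v s j).2 + 1) ∨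
    (s j = 1 ∧ (col v s (j+1)).1 = (col v s j).1 - 1 ∧ (col v s (j+1)).2 = (col v s j).2 - 1) ∨
    (s j = 2 ∧ (col v s (j+1)).1 = (col v s j).2 ∧ (col v s (j+1)).2 = (col v s j).1) := by
  have h3 : s j = 0 ∨ s j = 1 ∨ s j = 2 := by
    generalize s j = x
    revert x; decide
  rcases h3 with h | h | h <;> simp [col, h]

def ext {k : ℕ} (w : Fin k → Fin 3) (j : ℕ) : Fin 3 := if h : j < k then w ⟨j, h⟩ else 0

def phi {k : ℕ} (p : Bool × (Fin k → Fin 3)) (u : Fin 2 × Fin (k + 1)) : ℤ :=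
  if u.1.val = 0 then (col p.1 (ext p.2) u.2.val).1 else (col p.1 (ext p.2) u.2.val).2

lemma phi_height {k : ℕ} (p : Bool × (Fin k → Fin 3)) : IsHeight (phi p) := by
  constructor
  · rintro ⟨i, j⟩ ⟨i', j'⟩ h
    have hi := i.isLt
    have hi' := i'.isLt
    have a1 := col_inv p.1 (ext p.2) j.val
    have a2 := col_inv p.1 (ext p.2) j'.val
    have b1 := col_step p.1 (ext p.2) j.val
    have b2 := col_step p.1 (ext p.2) j'.val
    rw [abs_eq (by norm_num)]
    simp only [Adj] at h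
    simp only [phi]
    rcases h with ⟨h1, h2 | h2⟩ | ⟨h1, h2⟩
    · subst h1
      rw [h2] at b1
      clear b2
      split_ifs <;> omega
    · subst h1
      rw [h2] at b2
      clear b1
      split_ifs <;> omega
    · subst h1
      clear b1 b2
      split_ifs <;> omega
  · rintro ⟨i, j⟩ h1 h2
    simp only at h1 h2
    simp [phi, h1, h2, col]

lemma phi_inj {k : ℕ} : Function.Injective (phi (k := k)) := by
  rintro ⟨v, w⟩ ⟨v', w'⟩ h
  have h0 : ∀ j : ℕ, j < k + 1 → (col v (ext w) j).1 = (col v' (ext w') j).1 := by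
    intro j hj
    have := congrFun h (0, ⟨j, hj⟩)
    simpa [phi] using this
  have h1 : ∀ j : ℕ, j < k + 1 → (col v (ext w) j).2 = (col v' (ext w') j).2 := by
    intro j hj
    have := congrFun h (1, ⟨j, hj⟩)
    simpa [phi] using this
  have hv : v = v' := by
    have := h1 0 (by omega)
    cases v <;> cases v' <;> simp_all [col]
  subst hv
  congr 1
  funext j
  have hj := j.isLt
  have a := col_step v (ext w) j.val
  have b := col_step v (ext w') j.val
  have c := col_inv v (ext w) j.val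
  have e1 := h0 j.val (by omega)
  have e2 := h1 j.val (by omega)
  have e3 := h0 (j.val + 1) (by omega)
  have e4 := h1 (j.val + 1) (by omega)
  have f1 : ext w j.val = w j := by simp [ext]
  have f2 : ext w' j.val = w' j := by simp [ext]
  rw [f1] at a
  rw [f2] at b
  rcases a with ⟨a, a1, a2⟩ | ⟨a, a1, a2⟩ | ⟨a, a1, a2⟩ <;>
    rcases b with ⟨b, b1, b2⟩ | ⟨b, b1, b2⟩ | ⟨b, b1, b2⟩ <;>
    first | (exact a.trans b.symm) | (exfalso; clear a b f1 f2; omega)

lemma phi_surj {k : ℕ} (h : Fin 2 × Fin (k + 1) → ℤ) (hh : IsHeight h) : ∃ p, phi p = h := by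
  let v : Bool := decide (h (1, 0) = 1)
  let w : Fin k → Fin 3 := fun j =>
    if h (0, j.succ) = h (0, j.castSucc) + 1 ∧ h (1, j.succ) = h (1, j.castSucc) + 1 then 0
    else if h (0, j.succ) = h (0, j.castSucc) - 1 ∧ h (1, j.succ) = h (1, j.castSucc) - 1 then 1 else 2
  have hvert : ∀ j : Fin (k + 1), h (1, j) = h (0, j) + 1 ∨ h (1, j) = h (0, j) - 1 := by
    intro j
    have := hh.1 (0, j) (1, j) (by simp [Adj])
    rw [abs_eq (by norm_num)] at this
    omega
  have hhor : ∀ (i : Fin 2) (j : Fin k),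
      h (i, j.succ) = h (i, j.castSucc) + 1 ∨ h (i, j.succ) = h (i, j.castSucc) - 1 := by
    intro i j
    have := hh.1 (i, j.castSucc) (i, j.succ) (by simp [Adj])
    rw [abs_eq (by norm_num)] at this
    omega
  have h00 : h (0, 0) = 0 := hh.2 (0, 0) rfl rfl
  have key : ∀ (j : ℕ) (hj : j < k + 1), col v (ext w) j = (h (0, ⟨j, hj⟩), h (1, ⟨j, hj⟩)) := by
    intro j
    induction j with
    | zero =>
      intro hj
      have := hvert 0
      simp only [col, v]
      have e : (⟨0, hj⟩ : Fin (k + 1)) = 0 := rfl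
      rw [e]
      by_cases c : h (1, 0) = 1
      · simp [c, h00]
      · simp [c, h00]; omega
    | succ j ih =>
      intro hj
      have hj' : j < k := by omega
      have e1 : (⟨j + 1, hj⟩ : Fin (k + 1)) = (⟨j, hj'⟩ : Fin k).succ := rfl
      have e2 : (⟨j, by omega⟩ : Fin (k + 1)) = (⟨j, hj'⟩ : Fin k).castSucc := rfl
      have f : ext w j = w ⟨j, hj'⟩ := by simp [ext, hj']
      have i1 := ih (by omega)
      rw [e2] at i1
      rw [e1]
      have a := hvert (⟨j, hj'⟩ : Fin k).succ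
      have b := hvert (⟨j, hj'⟩ : Fin k).castSucc
      have c := hhor 0 ⟨j, hj'⟩
      have d := hhor 1 ⟨j, hj'⟩
      simp only [col, f, i1, w]
      generalize h (0, (⟨j, hj'⟩ : Fin k).succ) = x1 at *
      generalize h (1, (⟨j, hj'⟩ : Fin k).succ) = x2 at *
      generalize h (0, (⟨j, hj'⟩ : Fin k).castSucc) = y1 at *
      generalize h (1, (⟨j, hj'⟩ : Fin k).castSucc) = y2 at *
      by_cases c1 : x1 = y1 + 1 ∧ x2 = y2 + 1
      · rw [if_pos c1, if_pos rfl]
        simp [c1.1, c1.2]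
      · rw [if_neg c1]
        by_cases c2 : x1 = y1 - 1 ∧ x2 = y2 - 1
        · rw [if_pos c2, if_neg (by decide), if_pos rfl]
          simp [c2.1, c2.2]
        · rw [if_neg c2, if_neg (by decide), if_neg (by decide)]
          simp only [Prod.mk.injEq]
          omega
  refine ⟨(v, w), ?_⟩
  funext ⟨i, j⟩
  have := key j.val j.isLt
  simp only [phi, this]
  fin_cases i <;> simp

def e (l r : Option (Fin 3)) : ℕ :=
  (if l ≠ some 1 ∧ r ≠ some 0 then 1 else 0) + (if l ≠ some 0 ∧ r ≠ some 1 then 1 else 0)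

def wt (p : Option (Fin 3)) {k : ℕ} (w : Fin k → Fin 3) : ℕ :=
  ∑ j ∈ Finset.range (k + 1),
    e (if j = 0 then p else some (ext w (j - 1))) (if j = k then none else some (ext w j))

lemma adj_iff {k : ℕ} (i : Fin 2) (j : Fin (k + 1)) (P : Fin 2 × Fin (k + 1) → Prop) :
    (∀ u, Adj (i, j) u → P u) ↔ (P (⟨1 - i.val, by omega⟩, j) ∧
      (∀ h : j.val ≠ 0, P (i, ⟨j.val - 1, by have := j.isLt; omega⟩)) ∧ ∀ h : j.val ≠ k, P (i, ⟨j.val + 1, by have := j.isLt; omega⟩)) := by
  have hi := i.isLt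
  have hj := j.isLt
  constructor
  · intro H
    refine ⟨H _ ?_, fun h => H _ ?_, fun h => H _ ?_⟩
    · right; refine ⟨rfl, ?_⟩; simp only; omega
    · left; refine ⟨rfl, ?_⟩; simp only; omega
    · left; exact ⟨rfl, Or.inl rfl⟩
  · rintro ⟨h1, h2, h3⟩ ⟨i', j'⟩ h
    have hi' := i'.isLt
    have hj' := j'.isLt
    simp only [Adj] at h
    rcases h with ⟨a, b | b⟩ | ⟨a, b⟩
    · subst a
      have := h3 (by omega)
      convert this using 2
      ext; simp only; omega
    · subst a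
      have := h2 (by omega)
      convert this using 2
      ext; simp only; omega
    · subst a
      convert h1 using 2
      ext; simp only; omega

open Classical in
lemma col_count {k : ℕ} (p : Bool × (Fin k → Fin 3)) (j : Fin (k + 1)) :
    (if IsExt (phi p) (0, j) then 1 else 0) + (if IsExt (phi p) (1, j) then 1 else 0) =
    e (if j.val = 0 then none else some (ext p.2 (j.val - 1)))
      (if j.val = k then none else some (ext p.2 j.val)) := by
  have a := col_inv p.1 (ext p.2) j.val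
  have b := col_step p.1 (ext p.2) j.val
  have c : ¬ j.val = 0 → _ := fun h => by
    have c := col_step p.1 (ext p.2) (j.val - 1)
    rw [show j.val - 1 + 1 = j.val by omega] at c
    exact c
  have a' := col_inv p.1 (ext p.2) (j.val - 1)
  simp only [IsExt, adj_iff, phi]
  simp only [Fin.val_zero, Fin.val_one, if_true, Nat.sub_zero, Nat.sub_self, one_ne_zero, if_false]
  generalize (col p.1 (ext p.2) j.val).1 = x0 at *
  generalize (col p.1 (ext p.2) j.val).2 = x1 at *
  generalize (col p.1 (ext p.2) (j.val + 1)).1 = y0 at *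
  generalize (col p.1 (ext p.2) (j.val + 1)).2 = y1 at *
  generalize (col p.1 (ext p.2) (j.val - 1)).1 = z0 at *
  generalize (col p.1 (ext p.2) (j.val - 1)).2 = z1 at *
  generalize ext p.2 j.val = r at *
  generalize ext p.2 (j.val - 1) = l at *
  have t0 : ∀ Q : Prop, ∀ R : Prop, R → ((R → Q) ↔ Q) := fun Q R h => ⟨fun f => f h, fun q _ => q⟩
  have t1 : ∀ Q : Prop, ∀ R : Prop, R → (((¬ R) → Q) ↔ True) :=
    fun Q R h => ⟨fun _ => trivial, fun _ f => (f h).elim⟩
  simp only [ne_eq]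
  by_cases h0 : j.val = 0 <;> by_cases hk : j.val = k
  · simp only [t1 _ _ h0, t1 _ _ hk, if_pos h0, if_pos hk, and_true]
    rw [if_pos (by omega), if_pos (by omega)]
    rfl
  · simp only [t1 _ _ h0, t0 _ _ hk, if_pos h0, if_neg hk, true_and]
    clear c a'
    rcases b with ⟨rfl, b1, b2⟩ | ⟨rfl, b1, b2⟩ | ⟨rfl, b1, b2⟩
    · rw [show e none (some 0) = 1 from rfl]; split_ifs <;> omega
    · rw [show e none (some 1) = 1 from rfl]; split_ifs <;> omega
    · rw [show e none (some 2) = 2 from rfl]; split_ifs <;> omega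
  · simp only [t0 _ _ h0, t1 _ _ hk, if_neg h0, if_pos hk, and_true]
    replace c := c h0
    clear b
    rcases c with ⟨rfl, b1, b2⟩ | ⟨rfl, b1, b2⟩ | ⟨rfl, b1, b2⟩
    · rw [show e (some 0) none = 1 from rfl]; split_ifs <;> omega
    · rw [show e (some 1) none = 1 from rfl]; split_ifs <;> omega
    · rw [show e (some 2) none = 2 from rfl]; split_ifs <;> omega
  · simp only [t0 _ _ h0, t0 _ _ hk, if_neg h0, if_neg hk]
    replace c := c h0
    rcases b with ⟨rfl, b1, b2⟩ | ⟨rfl, b1, b2⟩ | ⟨rfl, b1, b2⟩ <;>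
    rcases c with ⟨rfl, c1, c2⟩ | ⟨rfl, c1, c2⟩ | ⟨rfl, c1, c2⟩
    · rw [show e (some 0) (some 0) = 0 from rfl]; split_ifs <;> omega
    · rw [show e (some 1) (some 0) = 1 from rfl]; split_ifs <;> omega
    · rw [show e (some 2) (some 0) = 1 from rfl]; split_ifs <;> omega
    · rw [show e (some 0) (some 1) = 1 from rfl]; split_ifs <;> omega
    · rw [show e (some 1) (some 1) = 0 from rfl]; split_ifs <;> omega
    · rw [show e (some 2) (some 1) = 1 from rfl]; split_ifs <;> omega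
    · rw [show e (some 0) (some 2) = 1 from rfl]; split_ifs <;> omega
    · rw [show e (some 1) (some 2) = 1 from rfl]; split_ifs <;> omega
    · rw [show e (some 2) (some 2) = 2 from rfl]; split_ifs <;> omega

lemma ext_count {k : ℕ} (p : Bool × (Fin k → Fin 3)) :
    Set.ncard {v | IsExt (phi p) v} = wt none p.2 := by
  classical
  have : {v | IsExt (phi p) v} = ↑(Finset.univ.filter fun v => IsExt (phi p) v) := by
    ext v; simp
  rw [this, Set.ncard_coe_finset, Finset.card_filter, Fintype.sum_prod_type_right, wt,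
    ← Fin.sum_univ_eq_sum_range (fun j => e (if j = 0 then none else some (ext p.2 (j - 1)))
      (if j = k then none else some (ext p.2 j))) (k + 1)]
  refine Finset.sum_congr rfl fun j _ => ?_
  rw [Fin.sum_univ_two]
  convert col_count p j

def N (k : ℕ) (p : Option (Fin 3)) (c : ℕ) : ℕ :=
  ∑ w : Fin k → Fin 3, if wt p w = c then 1 else 0

lemma E_eq (d k : ℕ) : E d 2 (k + 1) = 2 * N k none d := by
  have : {h : Fin 2 × Fin (k + 1) → ℤ | IsHeight h ∧ Set.ncard {v | IsExt h v} = d} =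
      phi '' ↑(Finset.univ.filter fun p : Bool × (Fin k → Fin 3) => wt none p.2 = d) := by
    ext h
    constructor
    · rintro ⟨h1, h2⟩
      obtain ⟨p, rfl⟩ := phi_surj h h1
      rw [ext_count] at h2
      exact ⟨p, by simpa using h2, rfl⟩
    · rintro ⟨p, hp, rfl⟩
      refine ⟨phi_height p, ?_⟩
      rw [ext_count]
      simpa using hp
  rw [E, this, Set.ncard_image_of_injective _ phi_inj, Set.ncard_coe_finset, Finset.card_filter,
    Fintype.sum_prod_type, N]
  simp

lemma wt_cons (p : Option (Fin 3)) {k : ℕ} (x : Fin 3) (w : Fin k → Fin 3) :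
    wt p (Fin.cons x w : Fin (k + 1) → Fin 3) = e p (some x) + wt (some x) w := by
  have e0 : ext (Fin.cons x w : Fin (k + 1) → Fin 3) 0 = x := by simp [ext]
  have e1 : ∀ j, ext (Fin.cons x w : Fin (k + 1) → Fin 3) (j + 1) = ext w j := by
    intro j
    by_cases h : j < k
    · simp only [ext, h, dif_pos, Nat.add_lt_add_iff_right]
      exact Fin.cons_succ (α := fun _ => Fin 3) x w ⟨j, h⟩
    · simp [ext, h]
  rw [wt, Finset.sum_range_succ', add_comm, wt]
  refine congrArg₂ (· + ·) ?_ ?_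
  · simp [e0]
  · refine Finset.sum_congr rfl fun j _ => ?_
    rcases j with _ | j
    · simp [e0, e1, eq_comm]
    · simp [e1]

lemma N_zero (p : Option (Fin 3)) (c : ℕ) : N 0 p c = if e p none = c then 1 else 0 := by
  simp [N, wt]

lemma N_succ (k : ℕ) (p : Option (Fin 3)) (c : ℕ) :
    N (k + 1) p c = ∑ x : Fin 3, if e p (some x) ≤ c then N k (some x) (c - e p (some x)) else 0 := by
  rw [N, ← (Fin.consEquiv fun _ : Fin (k + 1) => Fin 3).sum_comp, Fintype.sum_prod_type]
  refine Finset.sum_congr rfl fun x _ => ?_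
  have : ∀ w : Fin k → Fin 3, wt p ((Fin.consEquiv fun _ : Fin (k + 1) => Fin 3) (x, w)) =
      e p (some x) + wt (some x) w := fun w => wt_cons p x w
  simp only [this]
  split_ifs with h
  · rw [N]
    refine Finset.sum_congr rfl fun w _ => ?_
    congr 1
    apply propext
    omega
  · refine Finset.sum_eq_zero fun w _ => ?_
    rw [if_neg (by omega)]

noncomputable def g (p : Option (Fin 3)) (c : ℕ) : ℚ⟦X⟧ := PowerSeries.mk fun k => (N k p c : ℚ)

lemma g_eq (p : Option (Fin 3)) (c : ℕ) :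
    g p c = (if e p none = c then 1 else 0) +
      X * ∑ x : Fin 3, if e p (some x) ≤ c then g (some x) (c - e p (some x)) else 0 := by
  ext k
  rcases k with _ | k
  · simp only [g, coeff_mk, N_zero, map_add, coeff_zero_X_mul]
    split_ifs <;> simp
  · simp only [map_add, coeff_succ_X_mul, map_sum]
    rw [g, coeff_mk, N_succ]
    have : (coeff (k + 1)) (if e p none = c then (1 : ℚ⟦X⟧) else 0) = 0 := by
      split_ifs <;> simp [coeff_one]
    rw [this, zero_add]
    push_cast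
    refine Finset.sum_congr rfl fun x _ => ?_
    split_ifs <;> simp [g]

lemma geom_mul : geom * (1 - X) = 1 := PowerSeries.mk_one_mul_one_sub_eq_one ℚ

lemma F_eq : F 6 2 = 2 * X * g none 6 := by
  ext n
  rcases n with _ | k
  · simp [F, mul_assoc]
  · rw [mul_assoc, two_mul, map_add, coeff_succ_X_mul, F, coeff_mk, g, coeff_mk]
    rcases k with _ | k
    · simp [N_zero, e]
    · rw [if_pos (by omega), E_eq]
      push_cast
      ring

lemma gU (c : ℕ) : g (some 0) (c + 1) = geom * ((if c = 0 then 1 else 0) +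
    X * (g (some 1) c + g (some 2) c)) := by
  have h := g_eq (some 0) (c + 1)
  simp only [Fin.sum_univ_three, e] at h
  simp at h
  have := geom_mul
  split_ifs at h ⊢ <;> linear_combination geom * h - g (some 0) (c + 1) * this

lemma gD (c : ℕ) : g (some 1) (c + 1) = geom * ((if c = 0 then 1 else 0) +
    X * (g (some 0) c + g (some 2) c)) := by
  have h := g_eq (some 1) (c + 1)
  simp only [Fin.sum_univ_three, e] at h
  simp at h
  have := geom_mul
  split_ifs at h ⊢ <;> linear_combination geom * h - g (some 1) (c + 1) * this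

lemma gU0 : g (some 0) 0 = 0 := by
  have h := g_eq (some 0) 0
  simp only [Fin.sum_univ_three, e] at h
  simp at h
  have := geom_mul
  linear_combination geom * h - g (some 0) 0 * this

lemma gD0 : g (some 1) 0 = 0 := by
  have h := g_eq (some 1) 0
  simp only [Fin.sum_univ_three, e] at h
  simp at h
  have := geom_mul
  linear_combination geom * h - g (some 1) 0 * this

lemma gF0 : g (some 2) 0 = 0 := by
  have h := g_eq (some 2) 0
  simp only [Fin.sum_univ_three, e] at h
  simpa using h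

lemma gF1 : g (some 2) 1 = 0 := by
  have h := g_eq (some 2) 1
  simp only [Fin.sum_univ_three, e] at h
  simpa [gU0, gD0] using h

lemma gF (c : ℕ) : g (some 2) (c + 2) = (if c = 0 then 1 else 0) +
    X * (g (some 0) (c + 1) + g (some 1) (c + 1) + g (some 2) c) := by
  have h := g_eq (some 2) (c + 2)
  simp only [Fin.sum_univ_three, e] at h
  simpa using h

lemma gN : g none 6 = X * (g (some 0) 5 + g (some 1) 5 + g (some 2) 4) := by
  have h := g_eq none 6
  simp only [Fin.sum_univ_three, e] at h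
  simpa using h

lemma F_val : F 6 2 = 4 * geom ^ 5 - 60 * geom ^ 3 + 168 * geom ^ 2 - 208 * geom
    + (130 - 34 * (1 - X) - 2 * (1 - X) ^ 2 + 2 * (1 - X) ^ 3) := by
  have hg := geom_mul
  have u1 : g (some 0) 1 = geom := by rw [gU 0]; simp [gD0, gF0]
  have d1 : g (some 1) 1 = geom := by rw [gD 0]; simp [gU0, gF0]
  have f2 := gF 0
  have u2 := gU 1
  have d2 := gD 1
  have f3 := gF 1
  have u3 := gU 2
  have d3 := gD 2
  have f4 := gF 2
  have u4 := gU 3
  have d4 := gD 3
  have u5 := gU 4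
  have d5 := gD 4
  norm_num [u1, d1, gF0, gF1] at f2 u2 d2 f3 u3 d3 f4 u4 d4 u5 d5
  rw [F_eq, gN, u5, d5, f4, u4, d4, u3, d3, f3, u2, d2, f2]
  generalize geom = a at *
  generalize (X : ℚ⟦X⟧) = x at *
  clear * - hg
  obtain ⟨y, rfl⟩ : ∃ y, x = 1 - y := ⟨1 - x, by ring⟩
  linear_combination ((128) * a ^ 0 * y ^ 0 + (-28) * a ^ 0 * y ^ 1 + (-8) * a ^ 0 * y ^ 2 + (4) * a ^ 0 * y ^ 3 + (-220) * a ^ 1 * y ^ 0 + (176) * a ^ 1 * y ^ 1 + (-100) * a ^ 1 * y ^ 2 + (40) * a ^ 1 * y ^ 3 + (-8) * a ^ 1 * y ^ 4 + (144) * a ^ 2 * y ^ 0 + (-100) * a ^ 2 * y ^ 1 + (-64) * a ^ 2 * y ^ 2 + (140) * a ^ 2 * y ^ 3 + (-80) * a ^ 2 * y ^ 4 + (16) * a ^ 2 * y ^ 5 + (-84) * a ^ 3 * y ^ 0 + (280) * a ^ 3 * y ^ 1 + (-420) * a ^ 3 * y ^ 2 + (336) * a ^ 3 * y ^ 3 + (-140) * a ^ 3 * y ^ 4 + (24) * a ^ 3 * y ^ 5 + (-24) * a ^ 4 * y ^ 0 + (60) * a ^ 4 * y ^ 1 + (-80) * a ^ 4 * y ^ 2 + (60) * a ^ 4 * y ^ 3 + (-24) * a ^ 4 * y ^ 4 + (4) * a ^ 4 * y ^ 5) * hg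

lemma c2_unique (c : ℚ) (h : IsC2 6 2 c) : c = 0 := by
  obtain ⟨cs, P, rfl, h⟩ := h
  rw [F_val] at h
  have hg := geom_mul
  have e : Finset.Icc 1 (6 - 1) = {1, 2, 3, 4, 5} := by decide
  rw [e] at h
  simp only [Finset.mem_insert, Finset.mem_singleton, Finset.sum_insert, Finset.sum_singleton,
    not_false_eq_true, OfNat.ofNat_eq_ofNat, Nat.reduceEqDiff, or_self, Nat.reduceSub,
    OfNat.one_ne_ofNat] at h
  have h2 : ((4 - 60 * (1 - Polynomial.X) ^ 2 + 168 * (1 - Polynomial.X) ^ 3 - 208 * (1 - Polynomial.X) ^ 4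
      + (130 - 34 * (1 - Polynomial.X) - 2 * (1 - Polynomial.X) ^ 2 + 2 * (1 - Polynomial.X) ^ 3) * (1 - Polynomial.X) ^ 5 : Polynomial ℚ) : ℚ⟦X⟧) =
      ((Polynomial.C (cs 1) + Polynomial.C (cs 2) * (1 - Polynomial.X) + Polynomial.C (cs 3) * (1 - Polynomial.X) ^ 2
       + Polynomial.C (cs 4) * (1 - Polynomial.X) ^ 3 + Polynomial.C (cs 5) * (1 - Polynomial.X) ^ 4
       + P * (1 - Polynomial.X) ^ 5 : Polynomial ℚ) : ℚ⟦X⟧) := by
    have hp : ∀ i : ℕ, geom ^ i * (1 - X) ^ i = 1 := fun i => by rw [← mul_pow, hg, one_pow]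
    have n4 : ((4 : Polynomial ℚ) : ℚ⟦X⟧) = 4 := map_ofNat (Polynomial.coeToPowerSeries.ringHom (R := ℚ)) 4
    have n60 : ((60 : Polynomial ℚ) : ℚ⟦X⟧) = 60 := map_ofNat (Polynomial.coeToPowerSeries.ringHom (R := ℚ)) 60
    have n168 : ((168 : Polynomial ℚ) : ℚ⟦X⟧) = 168 := map_ofNat (Polynomial.coeToPowerSeries.ringHom (R := ℚ)) 168
    have n208 : ((208 : Polynomial ℚ) : ℚ⟦X⟧) = 208 := map_ofNat (Polynomial.coeToPowerSeries.ringHom (R := ℚ)) 208
    have n130 : ((130 : Polynomial ℚ) : ℚ⟦X⟧) = 130 := map_ofNat (Polynomial.coeToPowerSeries.ringHom (R := ℚ)) 130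
    have n34 : ((34 : Polynomial ℚ) : ℚ⟦X⟧) = 34 := map_ofNat (Polynomial.coeToPowerSeries.ringHom (R := ℚ)) 34
    have n2 : ((2 : Polynomial ℚ) : ℚ⟦X⟧) = 2 := map_ofNat (Polynomial.coeToPowerSeries.ringHom (R := ℚ)) 2
    simp only [Polynomial.coe_add, Polynomial.coe_sub, Polynomial.coe_mul, Polynomial.coe_pow,
      Polynomial.coe_one, Polynomial.coe_X, Polynomial.coe_C, n4, n60, n168, n208, n130, n34, n2]
    linear_combination (1 - X) ^ 5 * h - (4 - C (cs 1)) * hp 5 + C (cs 2) * (1 - X) * hp 4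
      + (60 + C (cs 3)) * (1 - X) ^ 2 * hp 3 - (168 - C (cs 4)) * (1 - X) ^ 3 * hp 2
      + (208 + C (cs 5)) * (1 - X) ^ 4 * hp 1
  have h3 := congrArg (fun q => Polynomial.eval 1 (Polynomial.derivative q)) (Polynomial.coe_injective ℚ h2)
  simp [Polynomial.derivative_pow] at h3
  exact h3

lemma c2_zero : IsC2 6 2 0 := by
  refine ⟨fun j => if j = 1 then 4 else if j = 3 then -60 else if j = 4 then 168 else if j = 5 then -208 else 0,
    130 - 34 * (1 - Polynomial.X) - 2 * (1 - Polynomial.X) ^ 2 + 2 * (1 - Polynomial.X) ^ 3, by simp, ?_⟩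
  have e : Finset.Icc 1 (6 - 1) = {1, 2, 3, 4, 5} := by decide
  have n130 : ((130 : Polynomial ℚ) : ℚ⟦X⟧) = 130 := map_ofNat (Polynomial.coeToPowerSeries.ringHom (R := ℚ)) 130
  have n34 : ((34 : Polynomial ℚ) : ℚ⟦X⟧) = 34 := map_ofNat (Polynomial.coeToPowerSeries.ringHom (R := ℚ)) 34
  have n2 : ((2 : Polynomial ℚ) : ℚ⟦X⟧) = 2 := map_ofNat (Polynomial.coeToPowerSeries.ringHom (R := ℚ)) 2
  rw [F_val, e]
  simp only [Polynomial.coe_add, Polynomial.coe_sub, Polynomial.coe_mul, Polynomial.coe_pow,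
      Polynomial.coe_one, Polynomial.coe_X, n130, n34, n2]
  simp [map_ofNat]
  ring

end H11.Ht

namespace Pool.Agent.Results.MP_562107_co.TwoRows

theorem result : ∃ d m : ℕ, 5 ≤ d ∧ 2 ≤ m ∧ ∃ c : ℚ,
    (∀ c' : ℚ, H11.Ht.IsC2 d m c' ↔ c' = c) ∧ c ≠ -4 * ((d : ℚ) - 4) := by
  refine ⟨6, 2, by norm_num, by norm_num, 0, fun c' => ⟨H11.Ht.c2_unique c', ?_⟩, by norm_num⟩
  rintro rfl
  exact H11.Ht.c2_zero

end Pool.Agent.Results.MP_562107_co.TwoRows
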